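import Pool.Agent.P.MP_32a6cf_lc.Main

namespace Pool.Agent.Results.MP_32a6cf_lc.NotClosedUnderReversal

open Pool.Agent.P.MP_32a6cf_lc

/-- For every finite alphabet with at least two letters there is a function recognisable by a
copyless cost register automaton over the rationals whose reversal is not recognisable. -/
theorem result :
    ∀ (A : Type) [Fintype A], 2 ≤ Fintype.card A →
      ∃ f : List A → ℚ, Recognisable f ∧ ¬ Recognisable (fun w => f w.reverse) := by
  intro A _ hA
  obtain ⟨b, a0, hb⟩ := Fintype.exists_pair_of_one_lt_card (α := A) (by omega)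
  exact ⟨(horner a0).value, ⟨Unit, inferInstance, 2, horner a0, fun _ => rfl⟩,
    not_recognisable hb⟩

end Pool.Agent.Results.MP_32a6cf_lc.NotClosedUnderReversal
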